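import Pool.Agent.Helper67.DO.StmtsD

/-!
# D1: inverse function estimates at every level (section 1 of h67_domega_proof.md)
-/

namespace Pool.Agent.Helper67.DO

open scoped BigOperators Real
open MeasureTheory

noncomputable section

theorem d1_summ (a : ℝ) (ha : 0 < a) : Summable fun l : ℤ => Real.exp (-(a * |(l : ℝ)|)) := by
  have h : Summable fun k : ℕ => Real.exp (-a) ^ k :=
    summable_geometric_of_lt_one (Real.exp_pos _).le (by rw [Real.exp_lt_one_iff]; linarith)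
  have e : ∀ k : ℕ, Real.exp (-(a * (k : ℝ))) = Real.exp (-a) ^ k := by
    intro k
    rw [← Real.exp_nat_mul]
    congr 1
    ring
  apply Summable.of_nat_of_neg
  · refine h.congr fun k => ?_
    rw [← e k]
    simp
  · refine h.congr fun k => ?_
    rw [← e k]
    simp

theorem d1_open (a : ℝ) : IsOpen (St a) :=
  isOpen_lt (by fun_prop) continuous_const

theorem d1_conv (a : ℝ) : Convex ℝ (St a) := by
  have h : St a = Complex.imCLM ⁻¹' (Set.Ioo (-a) a) := by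
    ext z
    simp [St, abs_lt]
  rw [h]
  exact (convex_Ioo _ _).linear_preimage Complex.imCLM.toLinearMap

theorem d1_mono {a b : ℝ} (h : a ≤ b) : St a ⊆ St b := fun _ hz => lt_of_lt_of_le hz h

theorem d1_real {a : ℝ} (h : 0 < a) (x : ℝ) : (x : ℂ) ∈ St a := by
  show |(x : ℂ).im| < a
  simpa using h

theorem d1_add_one {a : ℝ} {z : ℂ} (h : z ∈ St a) : z + 1 ∈ St a := by
  have h1 : |z.im| < a := h
  show |(z + 1).im| < a
  simpa using h1

theorem d1_ball {a b : ℝ} {z : ℂ} (h : z ∈ St a) : Metric.closedBall z b ⊆ St (a + b) := by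
  intro w hw
  have h1 : ‖w - z‖ ≤ b := by simpa [dist_eq_norm] using hw
  have h2 : |w.im - z.im| ≤ b := le_trans (by simpa using Complex.abs_im_le_norm (w - z)) h1
  have h3 : |z.im| < a := h
  show |w.im| < a + b
  have h4 : |w.im| ≤ |w.im - z.im| + |z.im| := by
    have := abs_add_le (w.im - z.im) z.im
    simpa using this
  linarith

/-- norm of a Fourier mode in a strip -/
theorem d1_mode (l : ℤ) (z : ℂ) : ‖Complex.exp (2 * π * Complex.I * l * z)‖ ≤ Real.exp (2 * π * |(l : ℝ)| * |z.im|) := by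
  rw [Complex.norm_exp]
  apply Real.exp_le_exp.2
  have h : (2 * π * Complex.I * l * z).re = -(2 * π * l * z.im) := by
    simp [Complex.mul_re, Complex.mul_im]
  rw [h]
  have h2 : -(2 * π * l * z.im) ≤ |2 * π * l * z.im| := neg_le_abs _
  have h3 : |2 * π * (l : ℝ) * z.im| = 2 * π * |(l : ℝ)| * |z.im| := by
    rw [abs_mul, abs_mul, abs_of_pos (by positivity : (0 : ℝ) < 2 * π)]
  linarith [h3 ▸ h2]

/-- the constant `S` -/
def d1S (n : ℕ) : ℝ := ∑' l : ℤ, Real.exp (-(π / (2 * n) * |(l : ℝ)|))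

theorem d1S_pos (n : ℕ) : 0 ≤ d1S n := tsum_nonneg fun _ => (Real.exp_pos _).le

/-- termwise bound -/
theorem d1_term {n : ℕ} (hn : 1 ≤ n) {c : ℤ → ℂ} {B B0 : ℝ} (hB : 0 ≤ B)
    (h0 : ‖c 0‖ ≤ B0) (hc : ∀ l : ℤ, l ≠ 0 → ‖c l‖ ≤ B * Real.exp (-(π * |(l : ℝ)| / n)))
    {z : ℂ} (hz : z ∈ St (1 / (4 * n))) (l : ℤ) :
    ‖c l * Complex.exp (2 * π * Complex.I * l * z)‖ ≤
      (if l = 0 then B0 else 0) + B * Real.exp (-(π / (2 * n) * |(l : ℝ)|)) := by
  have hn' : (0 : ℝ) < n := by exact_mod_cast hn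
  rw [norm_mul]
  by_cases hl : l = 0
  · subst hl
    simp
    linarith
  · rw [if_neg hl, zero_add]
    have hz' : |z.im| < 1 / (4 * n) := hz
    calc ‖c l‖ * ‖Complex.exp (2 * π * Complex.I * l * z)‖
        ≤ (B * Real.exp (-(π * |(l : ℝ)| / n))) * Real.exp (2 * π * |(l : ℝ)| * |z.im|) :=
          mul_le_mul (hc l hl) (d1_mode l z) (norm_nonneg _) (by positivity)
      _ = B * Real.exp (-(π * |(l : ℝ)| / n) + 2 * π * |(l : ℝ)| * |z.im|) := by
          rw [mul_assoc, ← Real.exp_add]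
      _ ≤ B * Real.exp (-(π / (2 * n) * |(l : ℝ)|)) := by
          apply mul_le_mul_of_nonneg_left _ hB
          apply Real.exp_le_exp.2
          have h1 : 2 * π * |(l : ℝ)| * |z.im| ≤ 2 * π * |(l : ℝ)| * (1 / (4 * n)) :=
            mul_le_mul_of_nonneg_left hz'.le (by positivity)
          have h2 : 2 * π * |(l : ℝ)| * (1 / (4 * n)) = π / (2 * n) * |(l : ℝ)| := by
            field_simp
            ring
          have h3 : -(π * |(l : ℝ)| / n) = -(2 * (π / (2 * n) * |(l : ℝ)|)) := by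
            field_simp
          rw [h3]
          linarith

theorem d1_summ2 {n : ℕ} (hn : 1 ≤ n) (B B0 : ℝ) :
    Summable fun l : ℤ => (if l = 0 then B0 else 0) + B * Real.exp (-(π / (2 * n) * |(l : ℝ)|)) := by
  have hn' : (0 : ℝ) < n := by exact_mod_cast hn
  refine Summable.add ?_ ((d1_summ _ (by positivity)).mul_left B)
  exact summable_of_ne_finset_zero (s := {0}) (fun b hb => by simp at hb; simp [hb])

theorem d1_tsum2 {n : ℕ} (hn : 1 ≤ n) (B B0 : ℝ) :
    ∑' l : ℤ, ((if l = 0 then B0 else 0) + B * Real.exp (-(π / (2 * n) * |(l : ℝ)|))) = B0 + B * d1S n := by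
  have hn' : (0 : ℝ) < n := by exact_mod_cast hn
  have h1 : Summable fun l : ℤ => (if l = 0 then B0 else 0) :=
    summable_of_ne_finset_zero (s := {0}) (fun b hb => by simp at hb; simp [hb])
  rw [Summable.tsum_add h1 ((d1_summ _ (by positivity)).mul_left B), tsum_ite_eq, tsum_mul_left]
  rfl

/-- general series -/
theorem d1_ser {n : ℕ} (hn : 1 ≤ n) {c : ℤ → ℂ} {B B0 : ℝ} (hB : 0 ≤ B)
    (h0 : ‖c 0‖ ≤ B0) (hc : ∀ l : ℤ, l ≠ 0 → ‖c l‖ ≤ B * Real.exp (-(π * |(l : ℝ)| / n))) :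
    (∀ z ∈ St (1 / (4 * n)), Summable fun l : ℤ => c l * Complex.exp (2 * π * Complex.I * l * z)) ∧
    (∀ z ∈ St (1 / (4 * n)), ‖∑' l : ℤ, c l * Complex.exp (2 * π * Complex.I * l * z)‖ ≤ B0 + B * d1S n) ∧
    DifferentiableOn ℂ (fun z => ∑' l : ℤ, c l * Complex.exp (2 * π * Complex.I * l * z)) (St (1 / (4 * n))) := by
  refine ⟨fun z hz => ?_, fun z hz => ?_, ?_⟩
  · exact Summable.of_norm_bounded (d1_summ2 hn B B0) (fun l => d1_term hn hB h0 hc hz l)
  · rw [← d1_tsum2 hn B B0]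
    exact tsum_of_norm_bounded (d1_summ2 hn B B0).hasSum (fun l => d1_term hn hB h0 hc hz l)
  · apply Complex.differentiableOn_tsum_of_summable_norm (d1_summ2 hn B B0)
    · intro l
      exact (Differentiable.const_mul (by fun_prop) _).differentiableOn
    · exact d1_open _
    · intro l z hz
      exact d1_term hn hB h0 hc hz l

/-- Fourier inversion on the real line -/
theorem d1_inversion {u : ℝ → ℝ} (hu : Continuous u) (hp : ∀ x, u (x + 1) = u x)
    (hs : Summable (fco u)) (x : ℝ) : four u x = (u x : ℂ) := by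
  have hper : Function.Periodic (fun x : ℝ => (u x : ℂ)) (1 : ℝ) := fun x => by
    show ((u (x + 1) : ℝ) : ℂ) = (u x : ℂ)
    rw [hp]
  have hcont : Continuous (hper.lift : AddCircle (1 : ℝ) → ℂ) := by
    apply continuous_coinduced_dom.2
    show Continuous fun x : ℝ => (hper.lift (x : AddCircle (1 : ℝ)) : ℂ)
    simp only [Function.Periodic.lift_coe]
    exact Complex.continuous_ofReal.comp hu
  let f : C(AddCircle (1 : ℝ), ℂ) := ⟨hper.lift, hcont⟩
  have : Fact ((0 : ℝ) < 1) := ⟨one_pos⟩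
  have hco : ∀ l : ℤ, fourierCoeff f l = fco u l := by
    intro l
    rw [fourierCoeff_eq_intervalIntegral f l 0]
    simp only [fco, one_div, inv_one, one_smul, zero_add]
    apply intervalIntegral.integral_congr
    intro t _
    simp only [fourier_coe_apply]
    have : f (t : AddCircle (1 : ℝ)) = (u t : ℂ) := hper.lift_coe t
    rw [this, smul_eq_mul, mul_comm]
    congr 2
    push_cast
    ring
  have hsum : Summable (fourierCoeff f) := by
    refine hs.congr fun l => (hco l).symm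
  have h := has_pointwise_sum_fourier_series_of_summable hsum (x : AddCircle (1 : ℝ))
  have h2 : f (x : AddCircle (1 : ℝ)) = (u x : ℂ) := hper.lift_coe x
  rw [h2] at h
  have h3 : HasSum (fun l : ℤ => fco u l * Complex.exp (2 * π * Complex.I * l * (x : ℂ))) (u x : ℂ) := by
    refine h.congr_fun ?_ |> id
    intro l
    rw [hco l, smul_eq_mul, fourier_coe_apply]
    congr 2
    push_cast
    ring
  exact h3.tsum_eq

/-- Cauchy estimate in strips -/
theorem d1_cauchy {a B : ℝ} (ha : 0 < a) {f : ℂ → ℂ} (hf : DifferentiableOn ℂ f (St a)) (c : ℂ)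
    (hB : ∀ z ∈ St a, ‖f z - c‖ ≤ B) : ∀ z ∈ St (a / 2), ‖deriv f z‖ ≤ 4 * B / a := by
  intro z hz
  have hsub : Metric.closedBall z (a / 4) ⊆ St a := fun w hw => d1_mono (by linarith) (d1_ball hz hw)
  have h := Complex.norm_deriv_le_of_forall_mem_sphere_norm_le (c := z) (R := a / 4) (C := B)
    (f := fun w => f w - c) (by positivity)
    ((hf.sub_const c).diffContOnCl_ball hsub)
    (fun w hw => hB w (hsub (Metric.sphere_subset_closedBall hw)))
  rw [deriv_sub_const] at h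
  calc ‖deriv f z‖ ≤ B / (a / 4) := h
    _ = 4 * B / a := by field_simp

/-- Fourier coefficients are linear and bounded -/
theorem d1_int (u : ℝ → ℝ) (hu : Continuous u) (l : ℤ) :
    IntervalIntegrable (fun x : ℝ => (u x : ℂ) * Complex.exp (-(2 * π * Complex.I * l * x))) volume 0 1 :=
  Continuous.intervalIntegrable (by fun_prop) _ _

theorem d1_fco_sub {u v : ℝ → ℝ} (hu : Continuous u) (hv : Continuous v) (l : ℤ) :
    fco (fun x => u x - v x) l = fco u l - fco v l := by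
  unfold fco
  rw [← intervalIntegral.integral_sub (d1_int u hu l) (d1_int v hv l)]
  apply intervalIntegral.integral_congr
  intro x _
  simp only
  push_cast
  ring

theorem d1_fco_smul (K : ℝ) (u : ℝ → ℝ) (l : ℤ) : fco (fun x => K * u x) l = (K : ℂ) * fco u l := by
  unfold fco
  rw [← intervalIntegral.integral_const_mul]
  apply intervalIntegral.integral_congr
  intro x _
  simp only
  push_cast
  ring

theorem d1_fco_le {u : ℝ → ℝ} {B : ℝ} (h : ∀ x, |u x| ≤ B) (l : ℤ) : ‖fco u l‖ ≤ B := by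
  unfold fco
  have := intervalIntegral.norm_integral_le_of_norm_le_const (a := (0 : ℝ)) (b := 1) (C := B)
    (f := fun x : ℝ => (u x : ℂ) * Complex.exp (-(2 * π * Complex.I * l * x))) ?_
  · simpa using this
  · intro x _
    rw [norm_mul, Complex.norm_real, Real.norm_eq_abs, Complex.norm_exp]
    have : (-(2 * π * Complex.I * l * x)).re = 0 := by simp [Complex.mul_re, Complex.mul_im]
    rw [this, Real.exp_zero, mul_one]
    exact h x

/-- exponential decay with the smaller exponent -/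
theorem d1_decay {n : ℕ} {l : ℤ} :
    Real.exp (-(2 * π * |(l : ℝ)| / n)) ≤ Real.exp (-(π * |(l : ℝ)| / n)) := by
  apply Real.exp_le_exp.2
  have h : 0 ≤ π * |(l : ℝ)| / n := by positivity
  have e : 2 * π * |(l : ℝ)| / n = 2 * (π * |(l : ℝ)| / n) := by ring
  rw [e]
  linarith

theorem d1_four {n : ℕ} (hn : 1 ≤ n) {u : ℝ → ℝ} {B : ℝ} (hB : 0 ≤ B)
    (hc : ∀ l : ℤ, l ≠ 0 → ‖fco u l‖ ≤ B * Real.exp (-(2 * π * |(l : ℝ)| / n))) :
    DifferentiableOn ℂ (four u) (St (1 / (4 * n))) ∧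
    (∀ z ∈ St (1 / (4 * n)), ‖four u z - fco u 0‖ ≤ B * d1S n) ∧
    (∀ z ∈ St (1 / (4 * n)), Summable fun l : ℤ => fco u l * Complex.exp (2 * π * Complex.I * l * z)) ∧
    Summable (fco u) := by
  have hn' : (0 : ℝ) < n := by exact_mod_cast hn
  have hc' : ∀ l : ℤ, l ≠ 0 → ‖fco u l‖ ≤ B * Real.exp (-(π * |(l : ℝ)| / n)) := fun l hl =>
    (hc l hl).trans (mul_le_mul_of_nonneg_left d1_decay hB)
  obtain ⟨h1, -, h3⟩ := d1_ser hn hB le_rfl hc'
  refine ⟨h3, ?_, h1, ?_⟩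
  · intro z hz
    have e : four u z - fco u 0 =
        ∑' l : ℤ, (if l = 0 then 0 else fco u l) * Complex.exp (2 * π * Complex.I * l * z) := by
      unfold four
      rw [(h1 z hz).tsum_eq_add_tsum_ite 0]
      simp only [Int.cast_zero, mul_zero, zero_mul, Complex.exp_zero, mul_one, add_sub_cancel_left]
      congr 1
      funext l
      by_cases hl : l = 0 <;> simp [hl]
    rw [e]
    have := (d1_ser (c := fun l => if l = 0 then 0 else fco u l) (B0 := 0) hn hB (by simp)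
      (fun l hl => by simp only [if_neg hl]; exact hc' l hl)).2.1 z hz
    simpa using this
  · refine (h1 0 (d1_real (by positivity) 0)).congr fun l => ?_
    simp

theorem d1_cont {Φ : ℝ → ℝ} (h : IsLift Φ) : Continuous fun x => Φ x - x := h.cont.sub continuous_id

theorem d1_cx {n : ℕ} (hn : 1 ≤ n) {Φ : ℝ → ℝ} (h : Φ ∈ AA n) :
    DifferentiableOn ℂ (cx Φ) (St (1 / (4 * n))) ∧ (∀ x : ℝ, cx Φ x = (Φ x : ℂ)) ∧
    (∀ z ∈ St (1 / (8 * n)), ‖deriv (cx Φ) z‖ ≤ 1 + 16 * n ^ 2 * d1S n) ∧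
    (∀ z ∈ St (1 / (16 * n)), ‖deriv (deriv (cx Φ)) z‖ ≤ 32 * n * (1 + 16 * n ^ 2 * d1S n)) := by
  have hn' : (0 : ℝ) < n := by exact_mod_cast hn
  obtain ⟨hl, hc, hd⟩ := h
  obtain ⟨h1, h2, -, h4⟩ := d1_four hn hn'.le hc
  have hhol : DifferentiableOn ℂ (cx Φ) (St (1 / (4 * n))) := differentiableOn_id.add h1
  have hb : ∀ z ∈ St (1 / (8 * n)), ‖deriv (cx Φ) z‖ ≤ 1 + 16 * n ^ 2 * d1S n := by
    intro z hz
    have hz' : z ∈ St (1 / (4 * n) / 2) := by
      have e : (1 : ℝ) / (4 * n) / 2 = 1 / (8 * n) := by field_simp; norm_num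
      rw [e]; exact hz
    have hz2 : z ∈ St (1 / (4 * n)) := d1_mono (half_le_self (by positivity)) hz'
    have h5 := d1_cauchy (by positivity) h1 _ h2 z hz'
    have h6 : DifferentiableAt ℂ (four fun x => Φ x - x) z := (h1 z hz2).differentiableAt ((d1_open _).mem_nhds hz2)
    have h7 : HasDerivAt (cx Φ) (1 + deriv (four fun x => Φ x - x) z) z :=
      (hasDerivAt_id z).add h6.hasDerivAt
    rw [h7.deriv]
    refine (norm_add_le _ _).trans ?_
    rw [norm_one]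
    have e : 4 * (n * d1S n) / (1 / (4 * n)) = 16 * n ^ 2 * d1S n := by field_simp; ring
    rw [e] at h5
    linarith
  refine ⟨hhol, ?_, hb, ?_⟩
  · intro x
    have h5 := d1_inversion (d1_cont hl) (fun x => by rw [hl.per]; ring) h4 x
    unfold cx
    rw [h5]
    push_cast
    ring
  · intro z hz
    have hz' : z ∈ St (1 / (8 * n) / 2) := by
      have e : (1 : ℝ) / (8 * n) / 2 = 1 / (16 * n) := by field_simp; norm_num
      rw [e]; exact hz
    have hd1 : DifferentiableOn ℂ (deriv (cx Φ)) (St (1 / (8 * n))) := by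
      refine (hhol.deriv (d1_open _)).mono (d1_mono ?_)
      apply one_div_le_one_div_of_le (by positivity)
      linarith
    have h5 := d1_cauchy (by positivity) hd1 0 (fun w hw => by rw [sub_zero]; exact hb w hw) z hz'
    refine h5.trans (le_of_eq ?_)
    field_simp
    ring

theorem d1_dreal {n : ℕ} (hn : 1 ≤ n) {Φ : ℝ → ℝ} (h : Φ ∈ AA n) (x : ℝ) :
    deriv (cx Φ) x = ((deriv Φ x : ℝ) : ℂ) := by
  have hn' : (0 : ℝ) < n := by exact_mod_cast hn
  obtain ⟨h1, h2, -, -⟩ := d1_cx hn h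
  have hx : (x : ℂ) ∈ St (1 / (4 * n)) := d1_real (by positivity) x
  have h3 : HasDerivAt (cx Φ) (deriv (cx Φ) x) (x : ℂ) := ((h1 _ hx).differentiableAt ((d1_open _).mem_nhds hx)).hasDerivAt
  have h4 : HasDerivAt (fun y : ℝ => cx Φ (y : ℂ)) (deriv (cx Φ) x) x := h3.comp_ofReal
  have h5 : HasDerivAt (fun y : ℝ => ((Φ y : ℝ) : ℂ)) ((deriv Φ x : ℝ) : ℂ) x := (h.1.diff x).hasDerivAt.ofReal_comp
  have h6 : (fun y : ℝ => cx Φ (y : ℂ)) = fun y : ℝ => ((Φ y : ℝ) : ℂ) := funext h2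
  rw [h6] at h4
  exact h4.unique h5

def d1M (n : ℕ) : ℝ := 1 + 16 * n ^ 2 * d1S n

def d1r (n : ℕ) : ℝ := 1 / (128 * n ^ 2 * d1M n)

theorem d1M_one (n : ℕ) : 1 ≤ d1M n := by
  unfold d1M
  have := d1S_pos n
  have : 0 ≤ 16 * (n : ℝ) ^ 2 * d1S n := by positivity
  linarith

theorem d1r_pos {n : ℕ} (hn : 1 ≤ n) : 0 < d1r n := by
  have hn' : (0 : ℝ) < n := by exact_mod_cast hn
  have := d1M_one n
  unfold d1r
  positivity

theorem d1r_le {n : ℕ} (hn : 1 ≤ n) : 2 * d1r n ≤ 1 / (16 * n) := by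
  have hn' : (1 : ℝ) ≤ n := by exact_mod_cast hn
  have := d1M_one n
  unfold d1r
  rw [mul_one_div, div_le_div_iff₀ (by positivity) (by positivity)]
  nlinarith [mul_le_mul hn' this zero_le_one (by linarith)]

/-- the derivative is close to the constant `M` -/
theorem d1_near {n : ℕ} (hn : 1 ≤ n) {Φ : ℝ → ℝ} (h : Φ ∈ AA n) {z : ℂ} (hz : z ∈ St (2 * d1r n)) :
    ‖deriv (cx Φ) z - (d1M n : ℂ)‖ ≤ d1M n - 1 / (2 * n) := by
  have hn' : (0 : ℝ) < n := by exact_mod_cast hn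
  have hM := d1M_one n
  obtain ⟨h1, -, h3, h4⟩ := d1_cx hn h
  have hz1 : z ∈ St (1 / (16 * n)) := d1_mono (d1r_le hn) hz
  have hx1 : ((z.re : ℝ) : ℂ) ∈ St (1 / (16 * n)) := d1_real (by positivity) _
  have hle : (1 : ℝ) / (16 * n) ≤ 1 / (4 * n) := by
    apply one_div_le_one_div_of_le (by positivity)
    linarith
  have hle8 : (1 : ℝ) / (16 * n) ≤ 1 / (8 * n) := by
    apply one_div_le_one_div_of_le (by positivity)
    linarith
  have h5 : ‖deriv (cx Φ) z - deriv (cx Φ) ((z.re : ℝ) : ℂ)‖ ≤ 32 * n * d1M n * ‖z - ((z.re : ℝ) : ℂ)‖ := by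
    apply (d1_conv (1 / (16 * n))).norm_image_sub_le_of_norm_deriv_le _ h4 hx1 hz1
    intro w hw
    exact ((h1.deriv (d1_open _)) w (d1_mono hle hw)).differentiableAt ((d1_open _).mem_nhds (d1_mono hle hw))
  have h6 : ‖z - ((z.re : ℝ) : ℂ)‖ = |z.im| := by
    have : z - ((z.re : ℝ) : ℂ) = (z.im : ℂ) * Complex.I := Complex.ext (by simp) (by simp)
    rw [this, norm_mul, Complex.norm_I, mul_one, Complex.norm_real, Real.norm_eq_abs]
  have hz2 : |z.im| < 2 * d1r n := hz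
  have h7 : 32 * n * d1M n * ‖z - ((z.re : ℝ) : ℂ)‖ ≤ 1 / (2 * n) := by
    rw [h6]
    calc 32 * n * d1M n * |z.im| ≤ 32 * n * d1M n * (2 * d1r n) :=
          mul_le_mul_of_nonneg_left hz2.le (by positivity)
      _ = 1 / (2 * n) := by
          unfold d1r
          have : d1M n ≠ 0 := by positivity
          field_simp
          norm_num
  have h8 := d1_dreal hn h z.re
  have h9 : deriv Φ z.re ≤ d1M n := by
    have := h3 ((z.re : ℝ) : ℂ) (d1_mono hle8 hx1)
    rw [h8, Complex.norm_real, Real.norm_eq_abs] at this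
    exact (le_abs_self _).trans this
  have h10 : ‖deriv (cx Φ) ((z.re : ℝ) : ℂ) - (d1M n : ℂ)‖ ≤ d1M n - 1 / n := by
    rw [h8, ← Complex.ofReal_sub, Complex.norm_real, Real.norm_eq_abs, abs_of_nonpos (by linarith)]
    have := h.2.2 z.re
    linarith
  have h11 : deriv (cx Φ) z - (d1M n : ℂ) = (deriv (cx Φ) z - deriv (cx Φ) ((z.re : ℝ) : ℂ)) +
      (deriv (cx Φ) ((z.re : ℝ) : ℂ) - (d1M n : ℂ)) := by ring
  rw [h11]
  refine (norm_add_le _ _).trans ?_
  have h12 : (1 : ℝ) / n = 1 / (2 * n) + 1 / (2 * n) := by field_simp; norm_num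
  rw [h12] at h10
  linarith

/-- contraction estimate -/
theorem d1_contr {n : ℕ} (hn : 1 ≤ n) {Φ : ℝ → ℝ} (h : Φ ∈ AA n) {z z' : ℂ} (hz : z ∈ St (2 * d1r n))
    (hz' : z' ∈ St (2 * d1r n)) :
    ‖cx Φ z - cx Φ z' - (d1M n : ℂ) * (z - z')‖ ≤ (d1M n - 1 / (2 * n)) * ‖z - z'‖ := by
  have hn' : (0 : ℝ) < n := by exact_mod_cast hn
  obtain ⟨h1, -, -, -⟩ := d1_cx hn h
  have hsub : St (2 * d1r n) ⊆ St (1 / (4 * n)) := d1_mono ((d1r_le hn).trans (by
    apply one_div_le_one_div_of_le (by positivity)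
    linarith))
  have hd : ∀ w ∈ St (2 * d1r n), HasDerivAt (fun w => cx Φ w - (d1M n : ℂ) * w) (deriv (cx Φ) w - (d1M n : ℂ)) w := by
    intro w hw
    have := ((h1 w (hsub hw)).differentiableAt ((d1_open _).mem_nhds (hsub hw))).hasDerivAt
    have h2 := this.sub ((hasDerivAt_id w).const_mul (d1M n : ℂ))
    rw [mul_one] at h2
    exact h2
  have h2 := (d1_conv (2 * d1r n)).norm_image_sub_le_of_norm_deriv_le (f := fun w => cx Φ w - (d1M n : ℂ) * w)
    (fun w hw => (hd w hw).differentiableAt) (fun w hw => by rw [(hd w hw).deriv]; exact d1_near hn h hw) hz' hz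
  refine le_trans (le_of_eq ?_) h2
  congr 1
  ring

theorem d1_inj {n : ℕ} (hn : 1 ≤ n) {Φ : ℝ → ℝ} (h : Φ ∈ AA n) {z z' : ℂ} (hz : z ∈ St (2 * d1r n))
    (hz' : z' ∈ St (2 * d1r n)) : ‖z - z'‖ ≤ 2 * n * ‖cx Φ z - cx Φ z'‖ := by
  have hn' : (0 : ℝ) < n := by exact_mod_cast hn
  have hM := d1M_one n
  have h1 := d1_contr hn h hz hz'
  have h2 : d1M n * ‖z - z'‖ ≤ ‖cx Φ z - cx Φ z'‖ + (d1M n - 1 / (2 * n)) * ‖z - z'‖ := by
    calc d1M n * ‖z - z'‖ = ‖(d1M n : ℂ) * (z - z')‖ := by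
          rw [norm_mul, Complex.norm_real, Real.norm_eq_abs, abs_of_pos (by linarith)]
      _ = ‖(cx Φ z - cx Φ z') - (cx Φ z - cx Φ z' - (d1M n : ℂ) * (z - z'))‖ := by
          congr 1
          ring
      _ ≤ ‖cx Φ z - cx Φ z'‖ + ‖cx Φ z - cx Φ z' - (d1M n : ℂ) * (z - z')‖ := norm_sub_le _ _
      _ ≤ _ := by linarith
  have h3 : 1 / (2 * n) * ‖z - z'‖ ≤ ‖cx Φ z - cx Φ z'‖ := by linarith
  calc ‖z - z'‖ = 2 * n * (1 / (2 * n) * ‖z - z'‖) := by field_simp
    _ ≤ 2 * n * ‖cx Φ z - cx Φ z'‖ := mul_le_mul_of_nonneg_left h3 (by positivity)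

theorem d1_surj {n : ℕ} (hn : 1 ≤ n) {Φ : ℝ → ℝ} (h : Φ ∈ AA n) {w : ℂ} (hw : w ∈ St (d1r n / (4 * n))) :
    ∃ z ∈ St (d1r n), cx Φ z = w := by
  have hn' : (1 : ℝ) ≤ n := by exact_mod_cast hn
  have hM := d1M_one n
  have hr := d1r_pos hn
  obtain ⟨x0, hx0⟩ := h.1.surj w.re
  have hball : Metric.closedBall (x0 : ℂ) (d1r n / 2) ⊆ St (d1r n) := fun z hz =>
    d1_mono (by linarith) (d1_ball (d1_real (a := d1r n / 2) (by linarith) x0) hz)
  have hball2 : Metric.closedBall (x0 : ℂ) (d1r n / 2) ⊆ St (2 * d1r n) := fun z hz =>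
    d1_mono (by linarith) (hball hz)
  have hc0 : 0 ≤ d1M n - 1 / (2 * n) := by
    have : (1 : ℝ) / (2 * n) ≤ 1 := by
      rw [div_le_one (by positivity)]
      linarith
    linarith
  let f' : ℂ →L[ℂ] ℂ := (d1M n : ℂ) • ContinuousLinearMap.id ℂ ℂ
  have hf'ap : ∀ y, f' y = (d1M n : ℂ) * y := fun y => rfl
  have hap : ApproximatesLinearOn (cx Φ) f' (Metric.closedBall (x0 : ℂ) (d1r n / 2)) ⟨d1M n - 1 / (2 * n), hc0⟩ := by
    intro a ha b hb
    exact d1_contr hn h (hball2 ha) (hball2 hb)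
  let g : f'.NonlinearRightInverse :=
    { toFun := fun y => y / (d1M n : ℂ)
      nnnorm := ⟨1 / d1M n, by positivity⟩
      bound' := by
        intro y
        rw [norm_div, Complex.norm_real, Real.norm_eq_abs, abs_of_pos (by linarith)]
        show ‖y‖ / d1M n ≤ 1 / d1M n * ‖y‖
        exact le_of_eq (by ring)
      right_inv' := by
        intro y
        have h0 : (d1M n : ℂ) ≠ 0 := by
          exact_mod_cast (by linarith : d1M n ≠ 0)
        rw [hf'ap]
        field_simp }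
  have hs := hap.surjOn_closedBall_of_nonlinearRightInverse g (ε := d1r n / 2) (b := (x0 : ℂ)) (by linarith) le_rfl
  have hwm : w ∈ Metric.closedBall (cx Φ x0) (((g.nnnorm : ℝ)⁻¹ - ((⟨d1M n - 1 / (2 * n), hc0⟩ : NNReal) : ℝ)) * (d1r n / 2)) := by
    have e1 : (g.nnnorm : ℝ) = 1 / d1M n := rfl
    have e2 : ((⟨d1M n - 1 / (2 * n), hc0⟩ : NNReal) : ℝ) = d1M n - 1 / (2 * n) := rfl
    rw [e1, e2, (d1_cx hn h).2.1 x0, hx0, Metric.mem_closedBall, dist_eq_norm]
    have e3 : w - ((w.re : ℝ) : ℂ) = (w.im : ℂ) * Complex.I := Complex.ext (by simp) (by simp)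
    rw [e3, norm_mul, Complex.norm_I, mul_one, Complex.norm_real, Real.norm_eq_abs]
    have e4 : |w.im| < d1r n / (4 * n) := hw
    have e5 : ((1 / d1M n)⁻¹ - (d1M n - 1 / (2 * n))) * (d1r n / 2) = d1r n / (4 * n) := by
      rw [one_div, inv_inv]
      field_simp
      ring
    rw [e5]
    exact e4.le
  obtain ⟨z, hz, hzw⟩ := hs hwm
  exact ⟨z, hball hz, hzw⟩

/-- closeness of the extensions -/
theorem d1_diff {n : ℕ} (hn : 1 ≤ n) {u u' : ℝ → ℝ} (hu : Continuous u) (hu' : Continuous u') {B δ : ℝ}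
    (hB : 0 ≤ B) (hδ : 0 ≤ δ)
    (hc : ∀ l : ℤ, l ≠ 0 → ‖fco u l‖ ≤ B * Real.exp (-(2 * π * |(l : ℝ)| / n)))
    (hc' : ∀ l : ℤ, l ≠ 0 → ‖fco u' l‖ ≤ B * Real.exp (-(2 * π * |(l : ℝ)| / n)))
    (hd : ∀ x, |u x - u' x| ≤ δ) {z : ℂ} (hz : z ∈ St (1 / (4 * n))) :
    ‖four u z - four u' z‖ ≤ δ + Real.sqrt (2 * B * δ) * d1S n := by
  have h1 := (d1_four hn hB hc).2.2.1 z hz
  have h2 := (d1_four hn hB hc').2.2.1 z hz
  have h3 : ∀ l, ‖fco u l - fco u' l‖ ≤ δ := fun l => by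
    rw [← d1_fco_sub hu hu' l]
    exact d1_fco_le hd l
  have e : four u z - four u' z = ∑' l : ℤ, (fco u l - fco u' l) * Complex.exp (2 * π * Complex.I * l * z) := by
    unfold four
    rw [← h1.tsum_sub h2]
    congr 1
    funext l
    ring
  rw [e]
  refine (d1_ser hn (c := fun l => fco u l - fco u' l) (Real.sqrt_nonneg _) (h3 0) ?_).2.1 z hz
  intro l hl
  have h4 : ‖fco u l - fco u' l‖ ≤ 2 * B * Real.exp (-(2 * π * |(l : ℝ)| / n)) := by
    refine (norm_sub_le _ _).trans ?_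
    linarith [hc l hl, hc' l hl]
  apply (pow_le_pow_iff_left₀ (norm_nonneg _) (by positivity) two_ne_zero).1
  rw [mul_pow, Real.sq_sqrt (by positivity), ← Real.exp_nat_mul]
  have e2 : ((2 : ℕ) : ℝ) * -(π * |(l : ℝ)| / n) = -(2 * π * |(l : ℝ)| / n) := by
    push_cast
    ring
  rw [e2]
  calc ‖fco u l - fco u' l‖ ^ 2 = ‖fco u l - fco u' l‖ * ‖fco u l - fco u' l‖ := sq _
    _ ≤ δ * (2 * B * Real.exp (-(2 * π * |(l : ℝ)| / n))) :=
        mul_le_mul (h3 l) h4 (norm_nonneg _) hδ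
    _ = _ := by ring

theorem d1_VV {n : ℕ} {K : ℝ} {v : ℝ → ℝ} (h : v ∈ VV n K) :
    0 ≤ K ∧ Continuous v ∧ (∀ x, v (x + 1) = v x) ∧
    ∀ l : ℤ, l ≠ 0 → ‖fco v l‖ ≤ 2 * n * K * Real.exp (-(2 * π * |(l : ℝ)| / n)) := by
  obtain ⟨⟨Φ, hΦ, Ψ, hΨ, hv⟩, hK⟩ := h
  have hK0 : 0 ≤ K := (abs_nonneg _).trans (hK 0)
  refine ⟨hK0, ?_, ?_, ?_⟩
  · rw [hv]
    exact continuous_const.mul (hΦ.1.cont.sub hΨ.1.cont)
  · intro x
    rw [hv]
    show K * (Φ (x + 1) - Ψ (x + 1)) = K * (Φ x - Ψ x)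
    rw [hΦ.1.per, hΨ.1.per]
    ring
  · intro l hl
    have e : v = fun x => K * ((Φ x - x) - (Ψ x - x)) := by
      rw [hv]
      funext x
      ring
    rw [e, d1_fco_smul K (fun x => (Φ x - x) - (Ψ x - x)) l, d1_fco_sub (d1_cont hΦ.1) (d1_cont hΨ.1) l, norm_mul,
      Complex.norm_real, Real.norm_eq_abs, abs_of_nonneg hK0]
    have h1 := hΦ.2.1 l hl
    have h2 := hΨ.2.1 l hl
    calc K * ‖fco (fun x => Φ x - x) l - fco (fun x => Ψ x - x) l‖
        ≤ K * (n * Real.exp (-(2 * π * |(l : ℝ)| / n)) + n * Real.exp (-(2 * π * |(l : ℝ)| / n))) :=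
          mul_le_mul_of_nonneg_left ((norm_sub_le _ _).trans (add_le_add h1 h2)) hK0
      _ = _ := by ring

theorem d1_four_add_one (u : ℝ → ℝ) (z : ℂ) : four u (z + 1) = four u z := by
  unfold four
  congr 1
  funext l
  congr 1
  have e : 2 * π * Complex.I * l * (z + 1) = 2 * π * Complex.I * l * z + l * (2 * π * Complex.I) := by ring
  rw [e, Complex.exp_add, Complex.exp_int_mul_two_pi_mul_I, mul_one]

/-- the inverse -/
theorem d1_cinv {n : ℕ} (hn : 1 ≤ n) {Φ : ℝ → ℝ} (h : Φ ∈ AA n) {w : ℂ} (hw : w ∈ St (d1r n / (4 * n))) :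
    cinv (d1r n) Φ w ∈ St (d1r n) ∧ cx Φ (cinv (d1r n) Φ w) = w := by
  obtain ⟨z, hz, hzw⟩ := d1_surj hn h hw
  exact Classical.epsilon_spec (p := fun z => z ∈ St (d1r n) ∧ cx Φ z = w) ⟨z, hz, hzw⟩

theorem st_D1 : ST_D1 := by
  intro n hn
  have hn' : (1 : ℝ) ≤ n := by exact_mod_cast hn
  have hM := d1M_one n
  have hr := d1r_pos hn
  have hS := d1S_pos n
  have hrle := d1r_le hn
  have hsub2 : ∀ {z : ℂ}, z ∈ St (d1r n) → z ∈ St (2 * d1r n) := fun {z} hz => d1_mono (by linarith) hz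
  have hle4 : 2 * d1r n ≤ 1 / (4 * n) := by
    refine hrle.trans ?_
    apply one_div_le_one_div_of_le (by positivity)
    linarith
  have hle8 : 2 * d1r n ≤ 1 / (8 * n) := by
    refine hrle.trans ?_
    apply one_div_le_one_div_of_le (by positivity)
    linarith
  have hper : ∀ (Φ : ℝ → ℝ) (z : ℂ), cx Φ (z + 1) = cx Φ z + 1 := by
    intro Φ z
    unfold cx
    rw [d1_four_add_one]
    ring
  have hspos : 0 < d1r n / (4 * n) := by positivity
  have hinv1 : ∀ Φ ∈ AA n, ∀ x : ℝ, cinv (d1r n) Φ (Φ x : ℂ) = (x : ℂ) := by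
    intro Φ hΦ x
    have h1 : ((Φ x : ℝ) : ℂ) ∈ St (d1r n / (4 * n)) := d1_real hspos _
    obtain ⟨h2, h3⟩ := d1_cinv hn hΦ h1
    have h4 := d1_inj hn hΦ (hsub2 h2) (hsub2 (d1_real hr x))
    rw [h3, (d1_cx hn hΦ).2.1 x, sub_self, norm_zero, mul_zero] at h4
    exact sub_eq_zero.1 (norm_le_zero_iff.1 h4)
  refine ⟨d1r n, d1r n / (4 * n), d1M n + 2 * n, ⟨?_, ?_, ?_, ?_, ?_, ?_, ?_, ?_, hinv1, ?_, ?_, ?_, ?_⟩⟩
  · have h1 : d1r n / (4 * n) ≤ d1r n := div_le_self hr.le (by linarith)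
    have h2 : (1 : ℝ) / (16 * n) ≤ 1 := by
      rw [div_le_one (by positivity)]
      linarith
    exact ⟨hspos, h1, by linarith, by linarith⟩
  · intro Φ hΦ
    exact (d1_cx hn hΦ).1.mono (d1_mono hle4)
  · intro Φ hΦ
    exact (d1_cx hn hΦ).2.1
  · intro Φ _ z _
    exact hper Φ z
  · intro Φ hΦ z hz
    have := (d1_cx hn hΦ).2.2.1 z (d1_mono hle8 hz)
    have e : 1 + 16 * (n : ℝ) ^ 2 * d1S n = d1M n := rfl
    rw [e] at this
    linarith
  · intro Φ hΦ z hz z' hz'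
    refine (d1_inj hn hΦ (hsub2 hz) (hsub2 hz')).trans ?_
    exact mul_le_mul_of_nonneg_right (by linarith) (norm_nonneg _)
  · intro Φ hΦ w hw
    obtain ⟨h1, h2⟩ := d1_cinv hn hΦ hw
    obtain ⟨h3, h4⟩ := d1_cinv hn hΦ (d1_add_one hw)
    refine ⟨h1, h2, ?_⟩
    have h5 := d1_inj hn hΦ (hsub2 h3) (hsub2 (d1_add_one h1))
    rw [h4, hper, h2, sub_self, norm_zero, mul_zero] at h5
    exact sub_eq_zero.1 (norm_le_zero_iff.1 h5)
  · intro Φ hΦ w hw
    have hlip : LipschitzOnWith ⟨2 * n, by positivity⟩ (cinv (d1r n) Φ) (St (d1r n / (4 * n))) := by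
      apply LipschitzOnWith.of_dist_le_mul
      intro a ha b hb
      obtain ⟨h1, h2⟩ := d1_cinv hn hΦ ha
      obtain ⟨h3, h4⟩ := d1_cinv hn hΦ hb
      have := d1_inj hn hΦ (hsub2 h1) (hsub2 h3)
      rw [h2, h4] at this
      rw [dist_eq_norm, dist_eq_norm]
      exact this
    have hnhds : St (d1r n / (4 * n)) ∈ nhds w := (d1_open _).mem_nhds hw
    have hcont : ContinuousAt (cinv (d1r n) Φ) w := hlip.continuousOn.continuousAt hnhds
    obtain ⟨h1, h2⟩ := d1_cinv hn hΦ hw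
    have hmem : cinv (d1r n) Φ w ∈ St (1 / (4 * n)) := d1_mono hle4 (hsub2 h1)
    have hder := (((d1_cx hn hΦ).1 _ hmem).differentiableAt ((d1_open _).mem_nhds hmem)).hasDerivAt
    have hne : deriv (cx Φ) (cinv (d1r n) Φ w) ≠ 0 := by
      intro h0
      have := d1_near hn hΦ (hsub2 h1)
      rw [h0, zero_sub, norm_neg, Complex.norm_real, Real.norm_eq_abs, abs_of_pos (by linarith)] at this
      have h5 : (0 : ℝ) < 1 / (2 * n) := by positivity
      linarith
    have := hder.of_local_left_inverse hcont hne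
      (by filter_upwards [hnhds] with y hy using (d1_cinv hn hΦ hy).2)
    exact this.differentiableAt.differentiableWithinAt
  · intro K v hv
    obtain ⟨hK, -, -, hd⟩ := d1_VV hv
    exact (d1_four hn (by positivity) hd).1.mono (d1_mono hle4)
  · intro K v hv z hz
    refine ⟨d1_four_add_one v z, ?_⟩
    obtain ⟨hK, -, -, hd⟩ := d1_VV hv
    have h1 := (d1_four hn (by positivity) hd).2.1 z (d1_mono hle4 hz)
    have h2 := d1_fco_le hv.2 0
    have h3 : ‖four v z‖ ≤ ‖four v z - fco v 0‖ + ‖fco v 0‖ := by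
      simpa using norm_add_le (four v z - fco v 0) (fco v 0)
    have h4 : 2 * n * K * d1S n ≤ 16 * n ^ 2 * d1S n * K := by
      have h5 : 0 ≤ K * d1S n := by positivity
      have h6 : 2 * (n : ℝ) ≤ 16 * n ^ 2 := by nlinarith
      calc 2 * n * K * d1S n = 2 * n * (K * d1S n) := by ring
        _ ≤ 16 * n ^ 2 * (K * d1S n) := mul_le_mul_of_nonneg_right h6 h5
        _ = _ := by ring
    have h7 : (d1M n + 2 * n) * K = K + 16 * n ^ 2 * d1S n * K + 2 * n * K := by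
      unfold d1M
      ring
    have h8 : 0 ≤ 2 * n * K := by positivity
    rw [h7]
    linarith
  · intro K v hv x
    obtain ⟨hK, h1, h2, hd⟩ := d1_VV hv
    exact d1_inversion h1 h2 (d1_four hn (by positivity) hd).2.2.2 x
  · intro K ε hε
    let E : ℝ → ℝ := fun δ => 32 * n ^ 2 * |K| * d1S n * (2 * n * (δ + Real.sqrt (2 * n * δ) * d1S n)) +
      (δ + Real.sqrt (2 * (2 * n * |K|) * δ) * d1S n)
    have hE : Continuous E := by
      show Continuous fun δ : ℝ => _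
      fun_prop
    have hE0 : E 0 = 0 := by simp [E]
    have hev : ∀ᶠ δ in nhdsWithin (0 : ℝ) (Set.Ioi 0), E δ < ε := by
      have h1 : Filter.Tendsto E (nhds 0) (nhds (E 0)) := hE.tendsto 0
      rw [hE0] at h1
      exact (h1.eventually (gt_mem_nhds hε)).filter_mono nhdsWithin_le_nhds
    obtain ⟨δ, hδ1, hδ2⟩ := (hev.and self_mem_nhdsWithin).exists
    have hδ : 0 < δ := hδ2
    refine ⟨δ, hδ, ?_⟩
    intro Φ hΦ Φ' hΦ' v hv v' hv' hd1 hd2
    obtain ⟨hK, hvc, -, hvd⟩ := d1_VV hv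
    obtain ⟨-, hvc', -, hvd'⟩ := d1_VV hv'
    have hKa : |K| = K := abs_of_nonneg hK
    have hB : (0 : ℝ) ≤ 2 * n * K := by positivity
    have hdv : ∀ z ∈ St (2 * d1r n), ‖four v z - four v' z‖ ≤ δ + Real.sqrt (2 * (2 * n * |K|) * δ) * d1S n := by
      intro z hz
      rw [hKa]
      exact d1_diff hn hvc hvc' hB hδ.le hvd hvd' hd2 (d1_mono hle4 hz)
    have hpos1 : 0 ≤ 32 * n ^ 2 * |K| * d1S n * (2 * n * (δ + Real.sqrt (2 * n * δ) * d1S n)) := by positivity
    refine ⟨?_, fun z hz => (hdv z hz).trans (by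
      have : E δ = 32 * n ^ 2 * |K| * d1S n * (2 * n * (δ + Real.sqrt (2 * n * δ) * d1S n)) +
        (δ + Real.sqrt (2 * (2 * n * |K|) * δ) * d1S n) := rfl
      linarith)⟩
    intro w hw
    obtain ⟨h1, h2⟩ := d1_cinv hn hΦ hw
    obtain ⟨h3, h4⟩ := d1_cinv hn hΦ' hw
    have h5 := d1_inj hn hΦ (hsub2 h1) (hsub2 h3)
    have h6 : ‖cx Φ (cinv (d1r n) Φ w) - cx Φ (cinv (d1r n) Φ' w)‖ ≤ δ + Real.sqrt (2 * n * δ) * d1S n := by
      rw [h2]
      have e1 : ‖w - cx Φ (cinv (d1r n) Φ' w)‖ = ‖cx Φ' (cinv (d1r n) Φ' w) - cx Φ (cinv (d1r n) Φ' w)‖ := by rw [h4]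
      have e2 : cx Φ' (cinv (d1r n) Φ' w) - cx Φ (cinv (d1r n) Φ' w) =
        four (fun x => Φ' x - x) (cinv (d1r n) Φ' w) - four (fun x => Φ x - x) (cinv (d1r n) Φ' w) := by
        unfold cx
        ring
      rw [e1, e2]
      refine d1_diff hn (d1_cont hΦ'.1) (d1_cont hΦ.1) (by positivity) hδ.le hΦ'.2.1 hΦ.2.1 ?_ (d1_mono hle4 (hsub2 h3))
      intro x
      have : Φ' x - x - (Φ x - x) = -(Φ x - Φ' x) := by ring
      rw [this, abs_neg]
      exact hd1 x
    have h7 : ‖cinv (d1r n) Φ w - cinv (d1r n) Φ' w‖ ≤ 2 * n * (δ + Real.sqrt (2 * n * δ) * d1S n) :=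
      h5.trans (mul_le_mul_of_nonneg_left h6 (by positivity))
    have h8 : ‖four v (cinv (d1r n) Φ w) - four v (cinv (d1r n) Φ' w)‖ ≤
        32 * n ^ 2 * |K| * d1S n * ‖cinv (d1r n) Φ w - cinv (d1r n) Φ' w‖ := by
      obtain ⟨hv1, hv2, -, -⟩ := d1_four hn hB hvd
      apply (d1_conv (2 * d1r n)).norm_image_sub_le_of_norm_deriv_le (f := four v) _ _ (hsub2 h3) (hsub2 h1)
      · intro z hz
        exact (hv1 z (d1_mono hle4 hz)).differentiableAt ((d1_open _).mem_nhds (d1_mono hle4 hz))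
      · intro z hz
        have hz' : z ∈ St (1 / (4 * n) / 2) := by
          have e : (1 : ℝ) / (4 * n) / 2 = 1 / (8 * n) := by field_simp; norm_num
          rw [e]; exact d1_mono hle8 hz
        have := d1_cauchy (by positivity) hv1 _ hv2 z hz'
        refine this.trans (le_of_eq ?_)
        rw [hKa]
        field_simp
        ring
    have h9 := hdv (cinv (d1r n) Φ' w) (hsub2 h3)
    have h10 : pull (d1r n) Φ v w - pull (d1r n) Φ' v' w =
      (four v (cinv (d1r n) Φ w) - four v (cinv (d1r n) Φ' w)) +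
      (four v (cinv (d1r n) Φ' w) - four v' (cinv (d1r n) Φ' w)) := by
      unfold pull
      ring
    rw [h10]
    refine (norm_add_le _ _).trans ?_
    have h11 : 32 * n ^ 2 * |K| * d1S n * ‖cinv (d1r n) Φ w - cinv (d1r n) Φ' w‖ ≤
        32 * n ^ 2 * |K| * d1S n * (2 * n * (δ + Real.sqrt (2 * n * δ) * d1S n)) :=
      mul_le_mul_of_nonneg_left h7 (by positivity)
    have : E δ = 32 * n ^ 2 * |K| * d1S n * (2 * n * (δ + Real.sqrt (2 * n * δ) * d1S n)) +
        (δ + Real.sqrt (2 * (2 * n * |K|) * δ) * d1S n) := rfl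
    linarith

end

end Pool.Agent.Helper67.DO
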