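import Pool.Agent.Helper67.DO.StmtsD
import Pool.Agent.Helper67.DO.DefsC

/-!
# SM: the smoothing theorem from C1, C3, C4, C5, C7 (section 3 of h67_domega_proof.md)
-/

namespace Pool.Agent.Helper67.DO

open scoped BigOperators Real
open MeasureTheory

noncomputable section

/-- parameter space -/
abbrev SmO : Type := ℕ × ℤ → Set.Icc (-1 : ℝ) 1

def smT (ω : SmO) : ℕ × ℤ → ℝ := fun i => (ω i : ℝ)

theorem sm_T_cont : Continuous smT := continuous_pi fun i => continuous_subtype_val.comp (continuous_apply i)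

theorem sm_T_mem (ω : SmO) : smT ω ∈ Cu := fun i => abs_le.2 (ω i).2

def smr (th : ℕ × ℤ → ℝ) : SmO := fun i => Set.projIcc (-1) 1 (by norm_num) (th i)

theorem sm_r_meas : Measurable smr :=
  measurable_pi_lambda _ fun i => continuous_projIcc.measurable.comp (measurable_pi_apply i)

theorem sm_Tr {th : ℕ × ℤ → ℝ} (h : th ∈ Cu) : smT (smr th) = th := by
  funext i
  have h1 : th i ∈ Set.Icc (-1 : ℝ) 1 := abs_le.1 (h i)
  show ((Set.projIcc (-1 : ℝ) 1 (by norm_num) (th i) : Set.Icc (-1 : ℝ) 1) : ℝ) = th i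
  rw [Set.projIcc_of_mem _ h1]

theorem sm_pC_meas : Measurable pC := by
  unfold pC
  exact Measurable.ite (measurableSet_le (by fun_prop) measurable_const) (by fun_prop) measurable_const

theorem sm_pC_nonneg (x : ℝ) : 0 ≤ pC x := by
  unfold pC
  split_ifs <;> positivity

theorem sm_rC_meas : Measurable rC := by
  unfold rC
  fun_prop

theorem sm_nu_ae : ∀ᵐ x ∂nuC, |x| ≤ 1 := by
  unfold nuC
  rw [ae_withDensity_iff (by exact ENNReal.measurable_ofReal.comp sm_pC_meas)]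
  refine Filter.Eventually.of_forall fun x hx => ?_
  by_contra hc
  apply hx
  have : pC x = 0 := by simp [pC, hc]
  simp [this]

theorem sm_rC_int : Integrable (fun x => |rC x|) nuC := by
  unfold nuC
  have hmp : Measurable fun x => ENNReal.ofReal (pC x) := ENNReal.measurable_ofReal.comp sm_pC_meas
  rw [integrable_withDensity_iff_integrable_smul' hmp
    (Filter.Eventually.of_forall fun _ => ENNReal.ofReal_lt_top)]
  have e : (fun x => (ENNReal.ofReal (pC x)).toReal • |rC x|) =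
      Set.indicator (Set.Icc (-1 : ℝ) 1) (fun x => 15 / 4 * |x| * (1 - x ^ 2)) := by
    funext x
    rw [ENNReal.toReal_ofReal (sm_pC_nonneg x), smul_eq_mul]
    by_cases hx : x ∈ Set.Icc (-1 : ℝ) 1
    · rw [Set.indicator_of_mem hx]
      have hx' : |x| ≤ 1 := abs_le.2 hx
      have h2 : 0 ≤ 1 - x ^ 2 := by
        have := abs_le.1 hx'
        nlinarith
      unfold pC rC
      rw [if_pos hx', abs_div, abs_neg, abs_mul, abs_of_nonneg h2, abs_of_pos (by norm_num : (0 : ℝ) < 4)]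
      by_cases h3 : 1 - x ^ 2 = 0
      · rw [h3]
        simp
      · field_simp
        ring
    · rw [Set.indicator_of_notMem hx]
      have hx' : ¬ |x| ≤ 1 := fun h => hx (abs_le.1 h)
      simp [pC, hx']
  rw [e, integrable_indicator_iff measurableSet_Icc]
  exact ContinuousOn.integrableOn_Icc (by fun_prop)

/-- the law on the cube of functions -/
def smMu : Measure (ℕ × ℤ → ℝ) := Measure.infinitePi fun _ : ℕ × ℤ => nuC

def smP : Measure SmO := smMu.map smr

theorem sm_mp [IsProbabilityMeasure nuC] (i : ℕ × ℤ) : MeasurePreserving (Function.eval i) smMu nuC :=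
  measurePreserving_eval_infinitePi (fun _ : ℕ × ℤ => nuC) i

theorem sm_mu_ae [IsProbabilityMeasure nuC] : ∀ᵐ th ∂smMu, th ∈ Cu := by
  have h : ∀ i : ℕ × ℤ, ∀ᵐ th ∂smMu, |th i| ≤ 1 := fun i =>
    (sm_mp i).quasiMeasurePreserving.ae sm_nu_ae
  exact ae_all_iff.2 h

theorem sm_mu_prob [IsProbabilityMeasure nuC] : IsProbabilityMeasure smMu := by
  unfold smMu
  infer_instance

theorem sm_P_prob [IsProbabilityMeasure nuC] : IsProbabilityMeasure smP := by
  have := sm_mu_prob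
  exact Measure.isProbabilityMeasure_map sm_r_meas.aemeasurable

theorem sm_transfer [IsProbabilityMeasure nuC] (g : (ℕ × ℤ → ℝ) → ℂ)
    (hg : AEStronglyMeasurable (fun ω => g (smT ω)) smP) : ∫ th, g th ∂smMu = ∫ ω, g (smT ω) ∂smP := by
  unfold smP at hg ⊢
  rw [integral_map sm_r_meas.aemeasurable hg]
  apply integral_congr_ae
  filter_upwards [sm_mu_ae] with th hth
  rw [sm_Tr hth]

theorem sm_rC_P [IsProbabilityMeasure nuC] (i : ℕ × ℤ) (h2 : (∫ x, |rC x| ∂nuC) ≤ 2) :
    Integrable (fun ω : SmO => |rC (ω i)|) smP ∧ ∫ ω : SmO, |rC (ω i)| ∂smP ≤ 2 := by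
  have hm : Measurable fun ω : SmO => |rC (ω i)| := by
    have h1 : Measurable fun ω : SmO => ((ω i : Set.Icc (-1 : ℝ) 1) : ℝ) :=
      measurable_subtype_coe.comp (measurable_pi_apply i)
    exact (sm_rC_meas.comp h1).abs
  have hae : (fun th : ℕ × ℤ → ℝ => |rC ((smr th i : Set.Icc (-1 : ℝ) 1) : ℝ)|) =ᵐ[smMu] fun th => |rC (th i)| := by
    filter_upwards [sm_mu_ae] with th hth
    have := congrFun (sm_Tr hth) i
    have h3 : ((smr th i : Set.Icc (-1 : ℝ) 1) : ℝ) = th i := this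
    rw [h3]
  have hi : Integrable (fun th : ℕ × ℤ → ℝ => |rC (th i)|) smMu :=
    ((sm_mp i).integrable_comp sm_rC_int.aestronglyMeasurable).2 sm_rC_int
  constructor
  · unfold smP
    exact (integrable_map_measure hm.aestronglyMeasurable sm_r_meas.aemeasurable).2 (hi.congr hae.symm)
  · unfold smP
    rw [integral_map sm_r_meas.aemeasurable hm.aestronglyMeasurable, integral_congr_ae hae]
    have h4 : ∫ th, |rC (th i)| ∂smMu = ∫ x, |rC x| ∂nuC := by
      have h5 := (sm_mp i).map_eq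
      rw [← h5, integral_map (sm_mp i).measurable.aemeasurable (by rw [h5]; exact sm_rC_int.aestronglyMeasurable)]
    rw [h4]
    exact h2

/-- sums of nonnegative integrable functions -/
theorem sm_sum {α : Type} [MeasurableSpace α] (P : Measure α) (G : ℕ → α → ℝ) (a : ℕ → ℝ)
    (hm : ∀ N, Measurable (G N)) (h0 : ∀ N x, 0 ≤ G N x) (hi : ∀ N, Integrable (G N) P)
    (hle : ∀ N, ∫ x, G N x ∂P ≤ a N) (ha : Summable a) :
    ∃ H : α → ℝ, Integrable H P ∧ (∫ x, H x ∂P ≤ ∑' N, a N) ∧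
      ∀ᵐ x ∂P, Summable (fun N => G N x) ∧ H x = ∑' N, G N x := by
  have hmeas : Measurable fun x => ∑' N, ENNReal.ofReal (G N x) :=
    Measurable.tsum fun N => ENNReal.measurable_ofReal.comp (hm N)
  have ha0 : ∀ N, 0 ≤ a N := fun N => (integral_nonneg (h0 N)).trans (hle N)
  have hfin : ∫⁻ x, ∑' N, ENNReal.ofReal (G N x) ∂P ≤ ENNReal.ofReal (∑' N, a N) := by
    have hmN : ∀ N, AEMeasurable (fun x => ENNReal.ofReal (G N x)) P := fun N =>
      (ENNReal.measurable_ofReal.comp (hm N)).aemeasurable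
    rw [lintegral_tsum hmN, ENNReal.ofReal_tsum_of_nonneg ha0 ha]
    apply ENNReal.tsum_le_tsum
    intro N
    rw [← ofReal_integral_eq_lintegral_ofReal (hi N) (Filter.Eventually.of_forall (h0 N))]
    exact ENNReal.ofReal_le_ofReal (hle N)
  have hne : ∫⁻ x, ∑' N, ENNReal.ofReal (G N x) ∂P ≠ ⊤ := (hfin.trans_lt ENNReal.ofReal_lt_top).ne
  have hae := ae_lt_top hmeas hne
  refine ⟨fun x => (∑' N, ENNReal.ofReal (G N x)).toReal,
    integrable_toReal_of_lintegral_ne_top hmeas.aemeasurable hne, ?_, ?_⟩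
  · rw [integral_toReal hmeas.aemeasurable hae]
    exact (ENNReal.toReal_mono ENNReal.ofReal_ne_top hfin).trans
      (le_of_eq (ENNReal.toReal_ofReal (tsum_nonneg ha0)))
  · filter_upwards [hae] with x hx
    have h1 : Summable fun N => G N x := by
      have := ENNReal.summable_toReal hx.ne
      refine this.congr fun N => ?_
      exact ENNReal.toReal_ofReal (h0 N x)
    refine ⟨h1, ?_⟩
    rw [← ENNReal.ofReal_tsum_of_nonneg (fun N => h0 N x) h1]
    exact ENNReal.toReal_ofReal (tsum_nonneg fun N => h0 N x)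

/-- the dominating function of block `N` -/
def smG (s0 : ℝ) (ns N : ℕ) (ω : SmO) : ℝ := KC s0 ns N * ∑ j ∈ frC ns N,
  (4 * π * nC ns N + 2 / delC s0 ns N * (1 + 2 * π * nC ns N * epsC s0 N) * |rC (ω (N, j))|)

theorem sm_gam {s0 : ℝ} (h : 0 < s0) (N : ℕ) : 0 < gamC s0 N := by
  unfold gamC
  positivity

theorem sm_eps {s0 : ℝ} (h : 0 < s0) (N : ℕ) : 0 < epsC s0 N := by
  have := sm_gam h N
  unfold epsC
  positivity

theorem sm_del {s0 : ℝ} (h : 0 < s0) (ns N : ℕ) : 0 < delC s0 ns N := by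
  have := sm_eps h N
  unfold delC dC
  positivity

theorem sm_KC {s0 : ℝ} (h : 0 < s0) (ns N : ℕ) : 0 ≤ KC s0 ns N := by
  unfold KC
  apply Finset.prod_nonneg
  intro M _
  have h1 := sm_gam h M
  have h2 := sm_eps h M
  unfold qC
  positivity

theorem sm_G_nonneg {s0 : ℝ} (h : 0 < s0) (ns N : ℕ) (ω : SmO) : 0 ≤ smG s0 ns N ω := by
  have h1 := sm_del h ns N
  have h2 := sm_eps h N
  unfold smG
  apply mul_nonneg (sm_KC h ns N)
  apply Finset.sum_nonneg
  intro j _
  positivity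

theorem sm_G_meas (s0 : ℝ) (ns N : ℕ) : Measurable (smG s0 ns N) := by
  unfold smG
  apply Measurable.const_mul
  apply Finset.measurable_sum
  intro j _
  have h1 : Measurable fun ω : SmO => ((ω (N, j) : Set.Icc (-1 : ℝ) 1) : ℝ) :=
    measurable_subtype_coe.comp (measurable_pi_apply (N, j))
  exact (((sm_rC_meas.comp h1).abs).const_mul _).const_add _

theorem sm_G_int [IsProbabilityMeasure nuC] {s0 : ℝ} (h : 0 < s0) (ns N : ℕ) (h2 : (∫ x, |rC x| ∂nuC) ≤ 2) :
    Integrable (smG s0 ns N) smP ∧ ∫ ω, smG s0 ns N ω ∂smP ≤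
      (dC ns N : ℝ) * (4 * π * nC ns N + 4 / delC s0 ns N * (1 + 2 * π * nC ns N * epsC s0 N)) * KC s0 ns N := by
  have := sm_P_prob
  have h3 := sm_del h ns N
  have h4 := sm_eps h N
  have h5 : ∀ j ∈ frC ns N, Integrable (fun ω : SmO =>
      (4 * π * nC ns N + 2 / delC s0 ns N * (1 + 2 * π * nC ns N * epsC s0 N) * |rC (ω (N, j))|)) smP := fun j _ =>
    (integrable_const _).add ((sm_rC_P (N, j) h2).1.const_mul _)
  constructor
  · unfold smG
    exact (integrable_finsetSum _ h5).const_mul _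
  · unfold smG
    rw [integral_const_mul, integral_finsetSum _ h5]
    have h6 : ∀ j ∈ frC ns N, ∫ ω : SmO,
        (4 * π * nC ns N + 2 / delC s0 ns N * (1 + 2 * π * nC ns N * epsC s0 N) * |rC (ω (N, j))|) ∂smP ≤
        4 * π * nC ns N + 4 / delC s0 ns N * (1 + 2 * π * nC ns N * epsC s0 N) := by
      intro j _
      have e1 : ∫ ω : SmO, 2 / delC s0 ns N * (1 + 2 * π * nC ns N * epsC s0 N) * |rC (ω (N, j))| ∂smP =
        2 / delC s0 ns N * (1 + 2 * π * nC ns N * epsC s0 N) * ∫ ω : SmO, |rC (ω (N, j))| ∂smP :=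
        integral_const_mul _ _
      rw [integral_add (integrable_const _) ((sm_rC_P (N, j) h2).1.const_mul _), integral_const, e1]
      have h7 := (sm_rC_P (N, j) h2).2
      have h8 : 0 ≤ 2 / delC s0 ns N * (1 + 2 * π * nC ns N * epsC s0 N) := by positivity
      have h9 := mul_le_mul_of_nonneg_left h7 h8
      simp only [probReal_univ, one_smul]
      have e : 2 / delC s0 ns N * (1 + 2 * π * nC ns N * epsC s0 N) * 2 =
        4 / delC s0 ns N * (1 + 2 * π * nC ns N * epsC s0 N) := by ring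
      linarith
    have h7 := Finset.sum_le_sum h6
    rw [Finset.sum_const] at h7
    have hcard : (frC ns N).card = dC ns N := by
      unfold frC dC
      rw [Int.card_Icc]
      omega
    rw [hcard, nsmul_eq_mul] at h7
    calc _ ≤ KC s0 ns N * _ := mul_le_mul_of_nonneg_left h7 (sm_KC h ns N)
      _ = _ := by ring

/-- the weight -/
def smw (s0 : ℝ) (ns : ℕ) (ω : SmO) (κ : ℂ → ℂ) : ℂ := ∑' N, wN s0 ns (smT ω) κ N

theorem sm_w_le (h3 : ST_C3) {s0 : ℝ} (h0 : 0 < s0) (h1 : s0 ≤ 1) {ns : ℕ} (hns : 1 ≤ ns) {κ : ℂ → ℂ} {B : ℝ}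
    (hκ : HB s0 κ) (hB : ∀ z ∈ St s0, ‖κ z‖ ≤ B) (ω : SmO) (N : ℕ) :
    ‖wN s0 ns (smT ω) κ N‖ ≤ B * smG s0 ns N ω := by
  obtain ⟨-, -, hb, -⟩ := h3 s0 ns h0 h1 hns (smT ω) (sm_T_mem ω) κ B hκ hB N
  unfold wN smG
  rw [norm_neg, Finset.mul_sum, Finset.mul_sum]
  refine (norm_sum_le _ _).trans (Finset.sum_le_sum fun j hj => ?_)
  obtain ⟨hb1, hb2⟩ := hb j hj
  refine (norm_add_le _ _).trans ?_
  rw [norm_mul, Complex.norm_real, Real.norm_eq_abs]
  have e : smT ω (N, j) = ((ω (N, j) : Set.Icc (-1 : ℝ) 1) : ℝ) := rfl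
  rw [e]
  have h5 := mul_le_mul_of_nonneg_right hb1 (abs_nonneg (rC ((ω (N, j) : Set.Icc (-1 : ℝ) 1) : ℝ)))
  calc _ ≤ 4 * π * nC ns N * (KC s0 ns N * B) + 2 / delC s0 ns N * (1 + 2 * π * nC ns N * epsC s0 N) *
        (KC s0 ns N * B) * |rC ((ω (N, j) : Set.Icc (-1 : ℝ) 1) : ℝ)| := add_le_add hb2 h5
    _ = _ := by ring

theorem sm_w_meas (h4 : ST_C4) {s0 : ℝ} (h0 : 0 < s0) (h1 : s0 ≤ 1) {ns : ℕ} (hns : 1 ≤ ns) {κ : ℂ → ℂ}
    (hκ : HB s0 κ) (N : ℕ) : Measurable fun x : SmO × ℝ => wN s0 ns (smT x.1) (fun z => κ (z - x.2)) N := by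
  obtain ⟨-, -, hc, -, -⟩ := h4 s0 ns h0 h1 hns
  have hT : Continuous fun x : SmO × ℝ => ((smT x.1, x.2) : (ℕ × ℤ → ℝ) × ℝ) :=
    (sm_T_cont.comp continuous_fst).prodMk continuous_snd
  unfold wN
  apply Measurable.neg
  apply Finset.measurable_sum
  intro j _
  have hB := ((hc κ hκ N j).1.comp_continuous hT fun x => ⟨sm_T_mem x.1, trivial⟩).measurable
  have hdB := ((hc κ hκ N j).2.comp_continuous hT fun x => ⟨sm_T_mem x.1, trivial⟩).measurable
  have hr : Measurable fun x : SmO × ℝ => (rC (smT x.1 (N, j)) : ℂ) := by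
    apply Complex.measurable_ofReal.comp
    apply sm_rC_meas.comp
    exact (continuous_apply (N, j)).measurable.comp (sm_T_cont.comp continuous_fst).measurable
  exact hdB.add (hB.mul hr)

theorem sm_w_meas2 (h4 : ST_C4) {s0 : ℝ} (h0 : 0 < s0) (h1 : s0 ≤ 1) {ns : ℕ} (hns : 1 ≤ ns) {κ : ℂ → ℂ}
    (hκ : HB s0 κ) (N : ℕ) : Measurable fun ω : SmO => wN s0 ns (smT ω) κ N := by
  have h := (sm_w_meas h4 h0 h1 hns hκ N).comp (measurable_prodMk_right (y := (0 : ℝ)) : Measurable fun ω : SmO => (ω, (0 : ℝ)))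
  have e : (fun ω : SmO => wN s0 ns (smT ω) κ N) =
      (fun x : SmO × ℝ => wN s0 ns (smT x.1) (fun z => κ (z - x.2)) N) ∘ fun ω : SmO => (ω, (0 : ℝ)) := by
    funext ω
    simp
  rw [e]
  exact h

/-! ### dependence of `η_N` and `κ_N` on the parameters -/

theorem sm_phi_diff (s0 : ℝ) (N : ℕ) (j : ℤ) : Differentiable ℂ (phiC s0 N j) := by
  unfold phiC
  split_ifs <;> fun_prop

theorem sm_phi_real (s0 : ℝ) (N : ℕ) (j : ℤ) (x : ℝ) : (phiC s0 N j x).im = 0 := by
  have h : ∃ r : ℝ, phiC s0 N j x = (r : ℂ) := by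
    refine ⟨Real.exp (-(2 * π * sC s0 N * |(j : ℝ)|)) *
      (if j = 0 then 1 else if 0 < j then Real.cos (2 * π * j * x) else Real.sin (2 * π * j * x)), ?_⟩
    unfold phiC
    split_ifs <;> push_cast <;> rfl
  obtain ⟨r, hr⟩ := h
  rw [hr, Complex.ofReal_im]

theorem sm_b_real (s0 : ℝ) (ns N : ℕ) (th : ℕ × ℤ → ℝ) (x : ℝ) : (bC s0 ns N th x).im = 0 := by
  unfold bC
  rw [Complex.im_ofReal_mul, Complex.im_sum]
  have : ∀ j ∈ frC ns N, ((th (N, j) : ℂ) * phiC s0 N j x).im = 0 := fun j _ => by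
    rw [Complex.im_ofReal_mul, sm_phi_real, mul_zero]
  rw [Finset.sum_congr rfl this]
  simp

theorem sm_re {z : ℂ} (h : z.im = 0) : ((z.re : ℝ) : ℂ) = z := Complex.ext (by simp) (by simp [h])

theorem sm_eta_real (s0 : ℝ) (ns : ℕ) (th : ℕ × ℤ → ℝ) (N : ℕ) (x : ℝ) : (etaN s0 ns th N x).im = 0 := by
  induction N with
  | zero => simp [etaN]
  | succ N ih =>
    show (etaN s0 ns th N x + bC s0 ns N th (etaN s0 ns th N x)).im = 0
    rw [← sm_re ih, Complex.add_im, sm_b_real, Complex.ofReal_im, add_zero]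

theorem sm_b_cont (s0 : ℝ) (ns N : ℕ) : Continuous fun x : (ℕ × ℤ → ℝ) × ℂ => bC s0 ns N x.1 x.2 := by
  unfold bC
  refine continuous_const.mul (continuous_finsetSum _ fun j _ => ?_)
  exact (Complex.continuous_ofReal.comp ((continuous_apply (N, j)).comp continuous_fst)).mul
    ((sm_phi_diff s0 N j).continuous.comp continuous_snd)

theorem sm_b_der (s0 : ℝ) (ns N : ℕ) (th : ℕ × ℤ → ℝ) (z : ℂ) : HasDerivAt (bC s0 ns N th)
    ((delC s0 ns N : ℂ) * ∑ j ∈ frC ns N, (th (N, j) : ℂ) * deriv (phiC s0 N j) z) z := by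
  unfold bC
  apply HasDerivAt.const_mul
  apply HasDerivAt.fun_sum
  intro j _
  exact ((sm_phi_diff s0 N j) z).hasDerivAt.const_mul _

theorem sm_db_cont (s0 : ℝ) (ns N : ℕ) : Continuous fun x : (ℕ × ℤ → ℝ) × ℂ => deriv (bC s0 ns N x.1) x.2 := by
  have e : (fun x : (ℕ × ℤ → ℝ) × ℂ => deriv (bC s0 ns N x.1) x.2) = fun x : (ℕ × ℤ → ℝ) × ℂ =>
      (delC s0 ns N : ℂ) * ∑ j ∈ frC ns N, (x.1 (N, j) : ℂ) * deriv (phiC s0 N j) x.2 := by
    funext x
    exact (sm_b_der s0 ns N x.1 x.2).deriv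
  rw [e]
  refine continuous_const.mul (continuous_finsetSum _ fun j _ => ?_)
  have h1 : Continuous (deriv (phiC s0 N j)) :=
    (sm_phi_diff s0 N j).contDiff.continuous_deriv le_rfl
  exact (Complex.continuous_ofReal.comp ((continuous_apply (N, j)).comp continuous_fst)).mul
    (h1.comp continuous_snd)

theorem sm_CC_der (s0 : ℝ) (ns N : ℕ) (th : ℕ × ℤ → ℝ) (z : ℂ) :
    HasDerivAt (CC s0 ns N th) (1 + deriv (bC s0 ns N th) z) z := by
  have h := sm_b_der s0 ns N th z
  rw [h.deriv]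
  exact (hasDerivAt_id z).add h

theorem sm_eta_diff (s0 : ℝ) (ns : ℕ) (th : ℕ × ℤ → ℝ) (N : ℕ) : Differentiable ℂ (etaN s0 ns th N) := by
  induction N with
  | zero => exact differentiable_id
  | succ N ih =>
    intro z
    exact ((sm_CC_der s0 ns N th _).comp z (ih z).hasDerivAt).differentiableAt

theorem sm_eta_cont (s0 : ℝ) (ns N : ℕ) (z : ℂ) : Continuous fun th => etaN s0 ns th N z := by
  induction N with
  | zero => exact continuous_const
  | succ N ih => exact ih.add ((sm_b_cont s0 ns N).comp (continuous_id.prodMk ih))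

theorem sm_deta_cont (s0 : ℝ) (ns N : ℕ) (z : ℂ) : Continuous fun th => deriv (etaN s0 ns th N) z := by
  induction N with
  | zero =>
    have e : (fun th => deriv (etaN s0 ns th 0) z) = fun _ => 1 := by
      funext th
      exact (hasDerivAt_id z).deriv
    rw [e]
    exact continuous_const
  | succ N ih =>
    have e : (fun th => deriv (etaN s0 ns th (N + 1)) z) =
        fun th => (1 + deriv (bC s0 ns N th) (etaN s0 ns th N z)) * deriv (etaN s0 ns th N) z := by
      funext th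
      exact ((sm_CC_der s0 ns N th _).comp z ((sm_eta_diff s0 ns th N) z).hasDerivAt).deriv
    rw [e]
    exact (continuous_const.add ((sm_db_cont s0 ns N).comp (continuous_id.prodMk (sm_eta_cont s0 ns N z)))).mul ih

theorem sm_BC_cont (h4 : ST_C4) {s0 : ℝ} (h0 : 0 < s0) (h1 : s0 ≤ 1) {ns : ℕ} (hns : 1 ≤ ns) {κ : ℂ → ℂ}
    (hκ : HB s0 κ) (N : ℕ) (j : ℤ) : ContinuousOn (fun th => BC s0 ns th κ N j) Cu := by
  obtain ⟨-, -, hc, -, -⟩ := h4 s0 ns h0 h1 hns
  have hg : Continuous fun th : ℕ × ℤ → ℝ => ((th, (0 : ℝ)) : (ℕ × ℤ → ℝ) × ℝ) := continuous_id.prodMk continuous_const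
  have hm : Set.MapsTo (fun th : ℕ × ℤ → ℝ => ((th, (0 : ℝ)) : (ℕ × ℤ → ℝ) × ℝ)) Cu (Cu ×ˢ Set.univ) :=
    fun th hth => ⟨hth, trivial⟩
  have h := (hc κ hκ N j).1.comp hg.continuousOn hm
  refine h.congr fun th _ => ?_
  simp

theorem sm_kap_cont (h3 : ST_C3) (h4 : ST_C4) {s0 : ℝ} (h0 : 0 < s0) (h1 : s0 ≤ 1) {ns : ℕ} (hns : 1 ≤ ns) {κ : ℂ → ℂ}
    (hκ : HB s0 κ) (N : ℕ) (y : ℝ) :
    ContinuousOn (fun th => kapN s0 ns th κ N (etaN s0 ns th N y)) Cu := by
  obtain ⟨K, hK⟩ := hκ.bdd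
  induction N with
  | zero => exact (continuousOn_const : ContinuousOn (fun _ : ℕ × ℤ → ℝ => κ y) Cu)
  | succ N ih =>
    have e : ∀ th ∈ Cu, kapN s0 ns th κ (N + 1) (etaN s0 ns th (N + 1) y) =
        (1 + deriv (bC s0 ns N th) (etaN s0 ns th N y)) * kapN s0 ns th κ N (etaN s0 ns th N y)
        - (delC s0 ns N : ℂ) * ∑ j ∈ frC ns N, BC s0 ns th κ N j * phiC s0 N j (etaN s0 ns th N y) := by
      intro th hth
      obtain ⟨-, -, -, hid⟩ := h3 s0 ns h0 h1 hns th hth κ K hκ hK N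
      have h5 := hid (etaN s0 ns th N y).re
      rw [sm_re (sm_eta_real s0 ns th N y), (sm_CC_der s0 ns N th _).deriv] at h5
      show kapN s0 ns th κ (N + 1) (CC s0 ns N th (etaN s0 ns th N y)) = _
      rw [h5]
      ring
    refine ContinuousOn.congr ?_ e
    refine ContinuousOn.sub (ContinuousOn.mul ?_ ih) (continuousOn_const.mul (continuousOn_finsetSum _ fun j _ => ?_))
    · exact (continuous_const.add ((sm_db_cont s0 ns N).comp (continuous_id.prodMk (sm_eta_cont s0 ns N y)))).continuousOn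
    · exact (sm_BC_cont h4 h0 h1 hns hκ N j).mul
        ((sm_phi_diff s0 N j).continuous.comp (sm_eta_cont s0 ns N y)).continuousOn

/-! ### integration by parts in the limit -/

theorem sm_exp_one {K : ℕ} (m : Fin K → ℤ) {z : Fin K → ℂ} (hz : ∀ k, (z k).im = 0) :
    ‖Complex.exp (2 * π * Complex.I * ∑ k, (m k : ℂ) * z k)‖ = 1 := by
  have e : ∑ k, (m k : ℂ) * z k = ((∑ k, (m k : ℝ) * (z k).re : ℝ) : ℂ) := by
    push_cast
    apply Finset.sum_congr rfl
    intro k _
    rw [sm_re (hz k)]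
  rw [e]
  have e2 : 2 * π * Complex.I * ((∑ k, (m k : ℝ) * (z k).re : ℝ) : ℂ) =
      ((2 * π * ∑ k, (m k : ℝ) * (z k).re : ℝ) : ℂ) * Complex.I := by
    push_cast
    ring
  rw [e2]
  exact Complex.norm_exp_ofReal_mul_I _

theorem st_SM (h1 : ST_C1) (h3 : ST_C3) (h4 : ST_C4) (h5 : ST_C5) (h7 : ST_C7) : ST_SM := by
  intro s0 hs0 hs1
  obtain ⟨ns, hns, hKC, hsum⟩ := h1 s0 hs0 hs1
  obtain ⟨hprob, hC7⟩ := h7
  obtain ⟨hr2, hibp⟩ := hC7 hprob s0 ns hs0 hs1 hns
  obtain ⟨η, hadm, hηc, hηl, hηd, hη2⟩ := h5 s0 ns hs0 hs1 hns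
  have hPp := sm_P_prob
  obtain ⟨H, hH1, hH2, hH3⟩ := sm_sum smP (fun N => smG s0 ns N) _ (fun N => sm_G_meas s0 ns N)
    (fun N ω => sm_G_nonneg hs0 ns N ω) (fun N => (sm_G_int hs0 ns N hr2).1) (fun N => (sm_G_int hs0 ns N hr2).2) hsum
  -- a.e. summability of the weight
  have hws : ∀ (κ : ℂ → ℂ) (B : ℝ), HB s0 κ → (∀ z ∈ St s0, ‖κ z‖ ≤ B) → ∀ᵐ ω ∂smP,
      Summable (fun N => wN s0 ns (smT ω) κ N) ∧ ‖smw s0 ns ω κ‖ ≤ B * H ω ∧
      ∀ N, ‖∑ M ∈ Finset.range N, wN s0 ns (smT ω) κ M‖ ≤ B * H ω := by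
    intro κ B hκ hB
    have hB0 : 0 ≤ B := (norm_nonneg _).trans (hB 0 (by show |(0 : ℂ).im| < s0; simpa using hs0))
    filter_upwards [hH3] with ω hω
    obtain ⟨hω1, hω2⟩ := hω
    have hle := sm_w_le h3 hs0 hs1 hns hκ hB ω
    have hs : Summable fun N => B * smG s0 ns N ω := hω1.mul_left B
    refine ⟨Summable.of_norm_bounded hs hle, ?_, ?_⟩
    · unfold smw
      rw [hω2, ← tsum_mul_left]
      exact tsum_of_norm_bounded hs.hasSum hle
    · intro N
      rw [hω2, ← tsum_mul_left]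
      refine (norm_sum_le _ _).trans ((Finset.sum_le_sum fun M _ => hle M).trans ?_)
      exact hs.sum_le_tsum _ (fun M _ => mul_nonneg hB0 (sm_G_nonneg hs0 ns M ω))
  have hwm : ∀ κ, HB s0 κ → Measurable fun ω : SmO => smw s0 ns ω κ := fun κ hκ =>
    Measurable.tsum fun N => sm_w_meas2 h4 hs0 hs1 hns hκ N
  have hwi : ∀ κ, HB s0 κ → Integrable (fun ω => smw s0 ns ω κ) smP := by
    intro κ hκ
    obtain ⟨B, hB⟩ := hκ.bdd
    refine Integrable.mono' (hH1.const_mul B) (hwm κ hκ).aestronglyMeasurable ?_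
    filter_upwards [hws κ B hκ hB] with ω hω using hω.2.1
  refine ⟨SmO, inferInstance, inferInstance, inferInstance, inferInstance, inferInstance, inferInstance, smP, hPp,
    fun ω => η (smT ω), smw s0 ns, ∑' N, (dC ns N : ℝ) * (4 * π * nC ns N + 4 / delC s0 ns N *
      (1 + 2 * π * nC ns N * epsC s0 N)) * KC s0 ns N, ⟨?_, ?_, ?_, ?_, hwi, ?_, ?_, ?_⟩⟩
  · exact fun ω => hadm _ (sm_T_mem ω)
  · have hg : Continuous fun x : SmO × ℂ => ((smT x.1, x.2) : (ℕ × ℤ → ℝ) × ℂ) :=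
      (sm_T_cont.comp continuous_fst).prodMk continuous_snd
    exact hηc.comp hg.continuousOn (fun x hx => ⟨sm_T_mem x.1, hx.2⟩)
  · intro κ κ' c hκ hκ'
    obtain ⟨B, hB⟩ := hκ.bdd
    obtain ⟨B', hB'⟩ := hκ'.bdd
    filter_upwards [hws κ B hκ hB, hws κ' B' hκ' hB'] with ω hω hω'
    unfold smw
    rw [← tsum_mul_left, ← (hω.1.mul_left c).tsum_add hω'.1]
    congr 1
    funext N
    obtain ⟨hlin, -⟩ := h4 s0 ns hs0 hs1 hns
    have hl := hlin (smT ω) (sm_T_mem ω) κ κ' c hκ hκ' N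
    unfold wN
    rw [mul_neg, ← neg_add, Finset.mul_sum, ← Finset.sum_add_distrib]
    congr 1
    apply Finset.sum_congr rfl
    intro j _
    rw [(hl j).1, (hl j).2]
    ring
  · intro κ κ' hκ he
    obtain ⟨-, hext, -⟩ := h4 s0 ns hs0 hs1 hns
    refine Filter.Eventually.of_forall fun ω => ?_
    unfold smw
    congr 1
    funext N
    unfold wN
    congr 1
    apply Finset.sum_congr rfl
    intro j _
    have hl := hext (smT ω) (sm_T_mem ω) κ κ' hκ he N j
    rw [hl.1, hl.2]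
  · intro κ B hκ hB
    have hB0 : 0 ≤ B := (norm_nonneg _).trans (hB 0 (by show |(0 : ℂ).im| < s0; simpa using hs0))
    calc ∫ ω, ‖smw s0 ns ω κ‖ ∂smP ≤ ∫ ω, B * H ω ∂smP := by
          apply integral_mono_ae (hwi κ hκ).norm (hH1.const_mul B)
          filter_upwards [hws κ B hκ hB] with ω hω using hω.2.1
      _ = B * ∫ ω, H ω ∂smP := integral_const_mul _ _
      _ ≤ B * _ := mul_le_mul_of_nonneg_left hH2 hB0
      _ = _ := mul_comm _ _
  · intro κ hκ K y m
    obtain ⟨B, hB⟩ := hκ.bdd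
    have hB0 : 0 ≤ B := (norm_nonneg _).trans (hB 0 (by show |(0 : ℂ).im| < s0; simpa using hs0))
    -- continuity of the pieces in the parameter
    have hce : ∀ N (x : ℝ), Continuous fun ω : SmO => etaN s0 ns (smT ω) N x := fun N x =>
      (sm_eta_cont s0 ns N x).comp sm_T_cont
    have hcd : ∀ N (x : ℝ), Continuous fun ω : SmO => deriv (etaN s0 ns (smT ω) N) x := fun N x =>
      (sm_deta_cont s0 ns N x).comp sm_T_cont
    have hck : ∀ N (x : ℝ), Continuous fun ω : SmO => kapN s0 ns (smT ω) κ N (etaN s0 ns (smT ω) N x) := fun N x =>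
      (sm_kap_cont h3 h4 hs0 hs1 hns hκ N x).comp_continuous sm_T_cont sm_T_mem
    have hcE : ∀ N, Continuous fun ω : SmO =>
        Complex.exp (2 * π * Complex.I * ∑ k, (m k : ℂ) * etaN s0 ns (smT ω) N (y k)) := fun N =>
      Complex.continuous_exp.comp (continuous_const.mul (continuous_finsetSum _ fun k _ => continuous_const.mul (hce N (y k))))
    have hcL : ∀ N, Continuous fun ω : SmO =>
        (2 * π * Complex.I * ∑ k, (m k : ℂ) * (deriv (etaN s0 ns (smT ω) N) (y k) * κ (y k)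
          - kapN s0 ns (smT ω) κ N (etaN s0 ns (smT ω) N (y k)))) *
          Complex.exp (2 * π * Complex.I * ∑ k, (m k : ℂ) * etaN s0 ns (smT ω) N (y k)) := fun N =>
      (continuous_const.mul (continuous_finsetSum _ fun k _ => continuous_const.mul
        (((hcd N (y k)).mul continuous_const).sub (hck N (y k))))).mul (hcE N)
    have hmR : ∀ N, Measurable fun ω : SmO =>
        Complex.exp (2 * π * Complex.I * ∑ k, (m k : ℂ) * etaN s0 ns (smT ω) N (y k)) *
          ∑ M ∈ Finset.range N, wN s0 ns (smT ω) κ M := fun N =>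
      (hcE N).measurable.mul (Finset.measurable_sum _ fun M _ => sm_w_meas2 h4 hs0 hs1 hns hκ M)
    have hid : ∀ N, ∫ ω, (2 * π * Complex.I * ∑ k, (m k : ℂ) * (deriv (etaN s0 ns (smT ω) N) (y k) * κ (y k)
          - kapN s0 ns (smT ω) κ N (etaN s0 ns (smT ω) N (y k)))) *
          Complex.exp (2 * π * Complex.I * ∑ k, (m k : ℂ) * etaN s0 ns (smT ω) N (y k)) ∂smP =
        ∫ ω, Complex.exp (2 * π * Complex.I * ∑ k, (m k : ℂ) * etaN s0 ns (smT ω) N (y k)) *
          ∑ M ∈ Finset.range N, wN s0 ns (smT ω) κ M ∂smP := by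
      intro N
      have h8 := hibp κ hκ N K y m
      have h9 := sm_transfer (fun th => (2 * π * Complex.I * ∑ k, (m k : ℂ) * (deriv (etaN s0 ns th N) (y k) * κ (y k)
          - kapN s0 ns th κ N (etaN s0 ns th N (y k)))) *
          Complex.exp (2 * π * Complex.I * ∑ k, (m k : ℂ) * etaN s0 ns th N (y k)))
          (hcL N).measurable.aestronglyMeasurable
      have h10 := sm_transfer (fun th => Complex.exp (2 * π * Complex.I * ∑ k, (m k : ℂ) * etaN s0 ns th N (y k)) *
          ∑ M ∈ Finset.range N, wN s0 ns th κ M) (hmR N).aestronglyMeasurable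
      exact h9.symm.trans (h8.trans h10)
    -- pointwise limits
    have hlime : ∀ ω : SmO, ∀ x : ℝ, Filter.Tendsto (fun N => etaN s0 ns (smT ω) N x) Filter.atTop (nhds (η (smT ω) x)) := by
      intro ω x
      rw [tendsto_iff_norm_sub_tendsto_zero]
      have hx : (x : ℂ) ∈ St (s0 / 4) := by
        show |(x : ℂ).im| < s0 / 4
        simp
        linarith
      refine squeeze_zero (fun _ => norm_nonneg _) (fun N => (hηl (smT ω) (sm_T_mem ω) N x hx).1) ?_
      have h8 : Filter.Tendsto (fun N : ℕ => s0 * (1 / 2 : ℝ) ^ (N + 8)) Filter.atTop (nhds (s0 * 0)) :=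
        ((tendsto_pow_atTop_nhds_zero_of_lt_one (by norm_num) (by norm_num)).comp
          (Filter.tendsto_add_atTop_nat 8)).const_mul s0
      rw [mul_zero] at h8
      refine h8.congr fun N => ?_
      rw [one_div, inv_pow]
      rfl
    have hkb : ∀ ω : SmO, ∀ N (x : ℝ), ‖kapN s0 ns (smT ω) κ N (etaN s0 ns (smT ω) N x)‖ ≤ KC s0 ns N * B := by
      intro ω N x
      obtain ⟨-, hb, -, -⟩ := h3 s0 ns hs0 hs1 hns (smT ω) (sm_T_mem ω) κ B hκ hB N
      apply hb
      have hx : (x : ℂ) ∈ St (s0 / 4) := by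
        show |(x : ℂ).im| < s0 / 4
        simp
        linarith
      have h8 : |(etaN s0 ns (smT ω) N x).im| < s0 / 2 := (hηl (smT ω) (sm_T_mem ω) N x hx).2
      show |(etaN s0 ns (smT ω) N x).im| < sC s0 N
      unfold sC
      have : 0 < s0 / 2 ^ (N + 1) := by positivity
      linarith
    have hlimk : ∀ ω : SmO, ∀ x : ℝ, Filter.Tendsto (fun N => kapN s0 ns (smT ω) κ N (etaN s0 ns (smT ω) N x))
        Filter.atTop (nhds 0) := by
      intro ω x
      apply squeeze_zero_norm (fun N => hkb ω N x)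
      simpa using hKC.mul_const B
    have hlimE : ∀ ω : SmO, Filter.Tendsto (fun N => Complex.exp (2 * π * Complex.I * ∑ k, (m k : ℂ) *
        etaN s0 ns (smT ω) N (y k))) Filter.atTop (nhds (Complex.exp (2 * π * Complex.I * ∑ k, (m k : ℂ) *
        η (smT ω) (y k)))) := fun ω =>
      (Complex.continuous_exp.tendsto _).comp ((tendsto_finsetSum _ fun k _ => (hlime ω (y k)).const_mul _).const_mul _)
    obtain ⟨Cb, hCb⟩ := hKC.bddAbove_range
    have hCb' : ∀ N, KC s0 ns N ≤ Cb := fun N => hCb ⟨N, rfl⟩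
    -- left side
    have hL : Filter.Tendsto (fun N => ∫ ω, (2 * π * Complex.I * ∑ k, (m k : ℂ) * (deriv (etaN s0 ns (smT ω) N) (y k) * κ (y k)
          - kapN s0 ns (smT ω) κ N (etaN s0 ns (smT ω) N (y k)))) *
          Complex.exp (2 * π * Complex.I * ∑ k, (m k : ℂ) * etaN s0 ns (smT ω) N (y k)) ∂smP) Filter.atTop
        (nhds (∫ ω, (2 * π * Complex.I * ∑ k, (m k : ℂ) * deriv (η (smT ω)) (y k) * κ (y k)) *
          Complex.exp (2 * π * Complex.I * ∑ k, (m k : ℂ) * η (smT ω) (y k)) ∂smP)) := by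
      apply tendsto_integral_of_dominated_convergence (fun _ => 2 * π * ∑ k, |(m k : ℝ)| * (2 * B + Cb * B))
        (fun N => (hcL N).measurable.aestronglyMeasurable) (integrable_const _)
      · intro N
        refine Filter.Eventually.of_forall fun ω => ?_
        rw [norm_mul, sm_exp_one m (fun k => sm_eta_real s0 ns (smT ω) N (y k)), mul_one, norm_mul, norm_mul, norm_mul,
          Complex.norm_I, mul_one, Complex.norm_real, Real.norm_eq_abs, abs_of_pos Real.pi_pos]
        have e2 : ‖(2 : ℂ)‖ = 2 := by simp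
        rw [e2]
        apply mul_le_mul_of_nonneg_left _ (by positivity)
        refine (norm_sum_le _ _).trans (Finset.sum_le_sum fun k _ => ?_)
        rw [norm_mul]
        have e3 : ‖((m k : ℤ) : ℂ)‖ = |(m k : ℝ)| := by
          rw [← Complex.ofReal_intCast, Complex.norm_real, Real.norm_eq_abs]
        rw [e3]
        apply mul_le_mul_of_nonneg_left _ (abs_nonneg _)
        refine (norm_sub_le _ _).trans (add_le_add ?_ ?_)
        · rw [norm_mul]
          exact mul_le_mul (hη2 (smT ω) (sm_T_mem ω) N (y k)) (hB _ (by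
            show |((y k : ℝ) : ℂ).im| < s0
            simpa using hs0)) (norm_nonneg _) (by norm_num)
        · exact (hkb ω N (y k)).trans (mul_le_mul_of_nonneg_right (hCb' N) hB0)
      · refine Filter.Eventually.of_forall fun ω => ?_
        refine Filter.Tendsto.mul (Filter.Tendsto.const_mul _ (tendsto_finsetSum _ fun k _ => ?_)) (hlimE ω)
        have h8 := (((hηd (smT ω) (sm_T_mem ω) (y k)).mul_const (κ (y k))).sub (hlimk ω (y k))).const_mul (m k : ℂ)
        rw [sub_zero, ← mul_assoc] at h8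
        exact h8
    have hR : Filter.Tendsto (fun N => ∫ ω, Complex.exp (2 * π * Complex.I * ∑ k, (m k : ℂ) * etaN s0 ns (smT ω) N (y k)) *
          ∑ M ∈ Finset.range N, wN s0 ns (smT ω) κ M ∂smP) Filter.atTop
        (nhds (∫ ω, Complex.exp (2 * π * Complex.I * ∑ k, (m k : ℂ) * η (smT ω) (y k)) * smw s0 ns ω κ ∂smP)) := by
      apply tendsto_integral_of_dominated_convergence (fun ω => B * H ω) (fun N => (hmR N).aestronglyMeasurable)
        (hH1.const_mul B)
      · intro N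
        filter_upwards [hws κ B hκ hB] with ω hω
        rw [norm_mul, sm_exp_one m (fun k => sm_eta_real s0 ns (smT ω) N (y k)), one_mul]
        exact hω.2.2 N
      · filter_upwards [hws κ B hκ hB] with ω hω
        exact (hlimE ω).mul hω.1.hasSum.tendsto_sum_nat
    have hR' := hR.congr fun N => (hid N).symm
    exact tendsto_nhds_unique hL hR'
  · intro κ hκ
    exact Measurable.tsum fun N => sm_w_meas h4 hs0 hs1 hns hκ N

end

end Pool.Agent.Helper67.DO
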